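import Pool.Agent.V8H27.GC.L

/-!
# Betti numbers of full subcomplexes of flag complexes (helper63)
-/

set_option autoImplicit false
set_option linter.unusedSectionVars false

noncomputable section

namespace Pool.Agent.V8H63.GC

open Pool.Agent.W907.SG Pool.Agent.V8H27.GC

variable {F : Type} [Field F] {V : Type} [Fintype V] [LinearOrder V]

/-- the cliques of `G` inside `A` -/
def CL (G : SimpleGraph V) (A : Set V) : Set (Finset V) := {T : Finset V | G.IsClique (T : Set V) ∧ (T : Set V) ⊆ A}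

variable {G : SimpleGraph V} {ρ : V → F →ₗ[F] F} {A : Set V} {i : ℕ}

theorem mem_KK_iff (hr : ∀ v x, ρ v x = -x) {c : Finset V → F} :
    c ∈ KK G ρ A ∅ i ↔ Sup (CL G A) i c := by
  rw [mem_KK]
  constructor
  · rintro ⟨h, _⟩ T hT
    exact h T fun h2 => hT ⟨⟨h2.1, h2.2.1⟩, h2.2.2⟩
  · intro h
    exact ⟨fun T hT => h T fun h2 => hT ⟨h2.1.1, h2.1.2, h2.2⟩, fun T t _ => hr t _⟩

theorem CL_dn {T S : Finset V} (hT : T ∈ CL G A) (hS : S ⊆ T) : S ∈ CL G A :=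
  ⟨hT.1.subset (by exact_mod_cast hS), (Finset.coe_subset.2 hS).trans hT.2⟩

theorem bd_out {c : Finset V → F} (hc : Sup (CL G A) i c) {T : Finset V} (hT : T ∉ CL G A) : bd F c T = 0 :=
  bd_zero fun v _ => hc _ fun h => hT (CL_dn h.1 (Finset.subset_insert _ _))

theorem mem_ZZ_iff (hr : ∀ v x, ρ v x = -x) {c : Finset V → F} :
    c ∈ ZZ G ρ A ∅ i ↔ Cyc (CL G A) i c := by
  unfold ZZ
  rw [Submodule.mem_inf, mem_KK_iff hr, LinearMap.mem_ker]
  constructor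
  · rintro ⟨h1, h2⟩
    exact ⟨h1, fun T _ => by rw [h2]; rfl⟩
  · rintro ⟨h1, h2⟩
    refine ⟨h1, ?_⟩
    funext T
    by_cases hT : T ∈ CL G A
    · exact h2 T hT
    · exact bd_out h1 hT

theorem mem_BB_iff (hr : ∀ v x, ρ v x = -x) {c : Finset V → F} (hc : Sup (CL G A) i c) :
    c ∈ BB G ρ A ∅ i ↔ Bdy (CL G A) i c := by
  unfold BB
  rw [Submodule.mem_map]
  constructor
  · rintro ⟨e, he, rfl⟩
    exact ⟨e, (mem_KK_iff hr).1 he, fun T _ => rfl⟩
  · rintro ⟨e, he1, he2⟩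
    refine ⟨e, (mem_KK_iff hr).2 he1, ?_⟩
    funext T
    by_cases hT : T ∈ CL G A
    · exact he2 T hT
    · rw [bd_out he1 hT, hc T fun h => hT h.1]

/-- zero homology -/
theorem beta0 (G : SimpleGraph V) (ρ : V → F →ₗ[F] F) (hr : ∀ v x, ρ v x = -x) (A : Set V) (i : ℕ)
    (h : H0 F {T : Finset V | G.IsClique (T : Set V) ∧ (T : Set V) ⊆ A} i) : beta G ρ A ∅ i = 0 := by
  have h1 : ZZ G ρ A ∅ i ≤ BB G ρ A ∅ i := by
    intro c hc
    have h2 := (mem_ZZ_iff hr).1 hc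
    exact (mem_BB_iff hr h2.1).2 (h c h2)
  unfold beta
  rw [le_antisymm h1 (BB_le_ZZ G ρ A ∅ i)]
  omega

/-- one-dimensional homology -/
theorem beta1 (G : SimpleGraph V) (ρ : V → F →ₗ[F] F) (hr : ∀ v x, ρ v x = -x) (A : Set V) (i : ℕ)
    (h : H1 F {T : Finset V | G.IsClique (T : Set V) ∧ (T : Set V) ⊆ A} i) : beta G ρ A ∅ i = 1 := by
  obtain ⟨z, hz, hnz, hall⟩ := h
  have hz1 : z ∈ ZZ G ρ A ∅ i := (mem_ZZ_iff hr).2 hz
  have hz2 : z ∉ BB G ρ A ∅ i := fun hb => hnz ((mem_BB_iff hr hz.1).1 hb)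
  have h0 : z ≠ 0 := fun h0 => hz2 (h0 ▸ (BB G ρ A ∅ i).zero_mem)
  have e1 : ZZ G ρ A ∅ i = BB G ρ A ∅ i ⊔ Submodule.span F {z} := by
    apply le_antisymm
    · intro c hc
      have h2 : Cyc (CL G A) i c := (mem_ZZ_iff hr).1 hc
      obtain ⟨a, ha⟩ := hall c h2
      have h3 : c - a • z ∈ BB G ρ A ∅ i := (mem_BB_iff hr (h2.1.sub (hz.1.smul a))).2 ha
      have h4 : c = (c - a • z) + a • z := by abel
      rw [h4]
      exact Submodule.add_mem_sup h3 (Submodule.smul_mem _ _ (Submodule.mem_span_singleton_self z))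
    · refine sup_le (BB_le_ZZ G ρ A ∅ i) ?_
      rw [Submodule.span_singleton_le_iff_mem]
      exact hz1
  have e2 : BB G ρ A ∅ i ⊓ Submodule.span F {z} = ⊥ := by
    rw [Submodule.eq_bot_iff]
    rintro x ⟨hx1, hx2⟩
    obtain ⟨a, rfl⟩ := Submodule.mem_span_singleton.1 hx2
    by_cases ha : a = 0
    · rw [ha, zero_smul]
    · exfalso
      apply hz2
      have := (BB G ρ A ∅ i).smul_mem a⁻¹ hx1
      rwa [smul_smul, inv_mul_cancel₀ ha, one_smul] at this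
  have e3 := Submodule.finrank_sup_add_finrank_inf_eq (BB G ρ A ∅ i) (Submodule.span F {z})
  rw [e2, ← e1, finrank_bot, finrank_span_singleton h0] at e3
  unfold beta
  omega

end Pool.Agent.V8H63.GC
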