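import Pool.Agent.N496.LT.Stm

/-!
# Transfer of doubled cycles along an embedding (helper63)
-/

set_option autoImplicit false

noncomputable section

namespace Pool.Agent.V8H63.GC

open Pool.Agent.W907.SG

/-- (G6) transfer of doubled cycles -/
theorem dbl_map {F : Type} [Field F] {V W : Type} {G : SimpleGraph V} {H : SimpleGraph W} (f : V ↪ W)
    (hf : ∀ x y, H.Adj (f x) (f y) ↔ G.Adj x y) {d : ℕ} (Z : Pool.Agent.N496.LT.Dbl F G d)
    (c : Fin Z.n → Fin (d + 1)) (hc : ∀ v w a b, G.Adj (Z.j v a) (Z.j w b) → c v ≠ c w) :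
    ∃ (Z' : Pool.Agent.N496.LT.Dbl F H d) (c' : Fin Z'.n → Fin (d + 1)),
      (∀ v w a b, H.Adj (Z'.j v a) (Z'.j w b) → c' v ≠ c' w) ∧ Z'.U.card = Z.U.card := by
  refine ⟨{ n := Z.n, z := Z.z, j := fun v b => f (Z.j v b), U := Z.U, z_ne := Z.z_ne, z_card := Z.z_card,
            z_cyc := Z.z_cyc,
            j_ne := fun v w h a b => f.injective.ne (Z.j_ne v w h a b),
            j_U := fun v hv => congrArg f (Z.j_U v hv),
            j_adj := fun v hv => ⟨f.injective.ne (Z.j_adj v hv).1, fun h => (Z.j_adj v hv).2 ((hf _ _).1 h)⟩,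
            clique := fun σ h v hv w hw hvw a b => (hf _ _).2 (Z.clique σ h v hv w hw hvw a b),
            cliqueU := fun v hv w hw hvw => (hf _ _).2 (Z.cliqueU v hv w hw hvw) }, c, ?_, rfl⟩
  intro v w a b h
  exact hc v w a b ((hf _ _).1 h)

end Pool.Agent.V8H63.GC
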