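import Pool.Agent.V8H27.GC.L

/-!
# Shift by a vertex (helper63)
-/

set_option autoImplicit false
set_option linter.unusedSectionVars false

noncomputable section

namespace Pool.Agent.V8H63.GC

open Pool.Agent.W907.SG Pool.Agent.V8H27.GC

variable {F : Type} [Field F] {V : Type} [Fintype V] [LinearOrder V]

/-- remove the vertex `m` -/
def dn (m : V) : (Finset V → F) →ₗ[F] (Finset V → F) where
  toFun c T := if m ∈ T then 0 else sg m T • c (insert m T)
  map_add' c d := by
    funext T
    by_cases h : m ∈ T <;> simp [h]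
  map_smul' a c := by
    funext T
    by_cases h : m ∈ T
    · simp [h]
    · simp only [h, if_false, Pi.smul_apply, RingHom.id_apply]
      exact smul_comm _ _ _

/-- add the vertex `m` -/
def ad (m : V) : (Finset V → F) →ₗ[F] (Finset V → F) where
  toFun c T := if m ∈ T then sg m (T.erase m) • c (T.erase m) else 0
  map_add' c d := by
    funext T
    by_cases h : m ∈ T <;> simp [h]
  map_smul' a c := by
    funext T
    by_cases h : m ∈ T
    · simp only [h, if_true, Pi.smul_apply, RingHom.id_apply]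
      exact smul_comm _ _ _
    · simp [h]

theorem dn_mem {m : V} (c : Finset V → F) {T : Finset V} (h : m ∈ T) : dn m c T = 0 := if_pos h

theorem dn_not {m : V} (c : Finset V → F) {T : Finset V} (h : m ∉ T) : dn m c T = sg m T • c (insert m T) :=
  if_neg h

theorem ad_mem {m : V} (c : Finset V → F) {T : Finset V} (h : m ∈ T) :
    ad m c T = sg m (T.erase m) • c (T.erase m) := if_pos h

theorem ad_not {m : V} (c : Finset V → F) {T : Finset V} (h : m ∉ T) : ad m c T = 0 := if_neg h

/-- the boundary of the shifted chain -/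
theorem bd_dn {m : V} (c : Finset V → F) {T : Finset V} (h : m ∉ T) :
    bd F (dn m c) T = - (sg m T • bd F c (insert m T)) := by
  have hm : m ∈ Tᶜ := Finset.mem_compl.2 h
  rw [bd_apply, ← Finset.add_sum_erase _ _ hm, dn_mem _ (Finset.mem_insert_self _ _), smul_zero, zero_add]
  have h2 : (insert m T)ᶜ = Tᶜ.erase m := by
    ext u
    simp
  rw [bd_apply, h2, Finset.smul_sum, ← Finset.sum_neg_distrib]
  refine Finset.sum_congr rfl fun v hv => ?_
  rw [Finset.mem_erase, Finset.mem_compl] at hv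
  have h3 : m ∉ insert v T := by
    rw [Finset.mem_insert]
    rintro (h4 | h4)
    · exact hv.1 h4.symm
    · exact h h4
  rw [dn_not _ h3, smul_smul, smul_smul, ← neg_smul, Finset.insert_comm]
  congr 1
  have h5 := sg_swap v m T hv.1 hv.2 h
  linarith

/-- a chain supported on sets containing `m` -/
theorem ad_dn {m : V} {c : Finset V → F} (hc : ∀ T, m ∉ T → c T = 0) : ad m (dn m c) = c := by
  funext T
  by_cases h : m ∈ T
  · rw [ad_mem _ h, dn_not _ (Finset.notMem_erase m T), Finset.insert_erase h, smul_smul, sg_mul_self, one_smul]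
  · rw [ad_not _ h, hc T h]

theorem dn_ad {m : V} {c : Finset V → F} (hc : ∀ T, m ∈ T → c T = 0) : dn m (ad m c) = c := by
  funext T
  by_cases h : m ∈ T
  · rw [dn_mem _ h, hc T h]
  · rw [dn_not _ h, ad_mem _ (Finset.mem_insert_self _ _), Finset.erase_insert h, smul_smul, sg_mul_self, one_smul]

variable {D : Set (Finset V)} {m : V}

theorem sup_dn {i : ℕ} {c : Finset V → F} (hc : Sup {T | m ∈ T ∧ T.erase m ∈ D} (i + 1) c) : Sup D i (dn m c) := by
  intro T hT
  by_cases h : m ∈ T
  · exact dn_mem _ h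
  · rw [dn_not _ h, hc, smul_zero]
    rintro ⟨⟨_, h1⟩, h2⟩
    rw [Finset.erase_insert h] at h1
    rw [Finset.card_insert_of_notMem h] at h2
    exact hT ⟨h1, by omega⟩

theorem sup_ad {i : ℕ} {c : Finset V → F} (hc : Sup D i c) :
    Sup {T | m ∈ T ∧ T.erase m ∈ D} (i + 1) (ad m c) := by
  intro T hT
  by_cases h : m ∈ T
  · rw [ad_mem _ h, hc, smul_zero]
    rintro ⟨h1, h2⟩
    refine hT ⟨⟨h, h1⟩, ?_⟩
    rw [Finset.card_erase_of_mem h] at h2
    have := Finset.card_pos.2 ⟨m, h⟩
    omega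
  · exact ad_not _ h

/-- shift by a vertex -/
theorem iso_shift (hm : ∀ T ∈ D, m ∉ T) (i : ℕ) : Iso F {T | m ∈ T ∧ T.erase m ∈ D} (i + 1) D i := by
  have key : ∀ c : Finset V → F, ∀ T ∈ D, bd F c (insert m T) = - (sg m T • bd F (dn m c) T) := by
    intro c T hT
    rw [bd_dn c (hm T hT), smul_neg, neg_neg, smul_smul, sg_mul_self, one_smul]
  refine ⟨dn m, fun c hc => ⟨sup_dn hc.1, fun T hT => ?_⟩, fun c hc => ⟨?_, ?_⟩, fun c' hc' => ?_⟩
  · rw [bd_dn c (hm T hT), hc.2 (insert m T)
      ⟨Finset.mem_insert_self _ _, by rw [Finset.erase_insert (hm T hT)]; exact hT⟩, smul_zero, neg_zero]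
  · rintro ⟨e, he1, he2⟩
    refine ⟨- ad m e, (sup_ad he1).neg, fun T hT => ?_⟩
    have hT1 : m ∈ T := hT.1
    have hT2 : T.erase m ∈ D := hT.2
    have hem : ∀ T, m ∈ T → e T = 0 := fun T h => he1 T fun h2 => hm T h2.1 h
    have h1 := key (ad m e) _ hT2
    rw [dn_ad hem, he2 _ hT2, Finset.insert_erase hT1, dn_not _ (Finset.notMem_erase m T),
      Finset.insert_erase hT1, smul_smul, sg_mul_self, one_smul] at h1
    rw [map_neg, Pi.neg_apply, h1, neg_neg]
  · rintro ⟨e, he1, he2⟩
    refine ⟨- dn m e, (sup_dn he1).neg, fun T hT => ?_⟩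
    have h1 := bd_dn e (hm T hT)
    rw [he2 (insert m T) ⟨Finset.mem_insert_self _ _, by rw [Finset.erase_insert (hm T hT)]; exact hT⟩] at h1
    rw [map_neg, Pi.neg_apply, h1, neg_neg, dn_not _ (hm T hT)]
  · have hcm : ∀ T, m ∈ T → c' T = 0 := fun T h => hc'.1 T fun h2 => hm T h2.1 h
    refine ⟨ad m c', ⟨sup_ad hc'.1, fun T hT => ?_⟩, 0, fun T _ => rfl, fun T _ => ?_⟩
    · have hT1 : m ∈ T := hT.1
      have hT2 : T.erase m ∈ D := hT.2
      have h1 := key (ad m c') _ hT2
      rw [dn_ad hcm, hc'.2 _ hT2, smul_zero, neg_zero, Finset.insert_erase hT1] at h1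
      exact h1
    · rw [dn_ad hcm, sub_self, map_zero]

end Pool.Agent.V8H63.GC
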